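import Pool.Agent.Y58.HT.Stm

/-!
Block CON of project HT: contraction by powers of a diagonal matrix with two different frames.
Adapted from `H361P.contr_pgl`.
-/

universe u

namespace Pool.Agent.Y865.HT

open Set Matrix H361P
open scoped LinearAlgebra.Projectivization MatrixGroups

variable {F : Type u} [Field F]

theorem dm_mul_dm (l l' : Fˣ) (b : Bool) : dm l b * dm l' b = dm (l * l') b := by
  ext i j
  cases b <;> fin_cases i <;> fin_cases j <;>
    simp [dm, GeneralLinearGroup.mkOfDetNeZero]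

theorem dm_one (b : Bool) : dm (1 : Fˣ) b = 1 := by
  ext i j
  cases b <;> fin_cases i <;> fin_cases j <;>
    simp [dm, GeneralLinearGroup.mkOfDetNeZero]

theorem dm_pow (l : Fˣ) (b : Bool) (n : ℕ) : dm l b ^ n = dm (l ^ n) b := by
  induction n with
  | zero => rw [pow_zero, pow_zero, dm_one]
  | succ n ih => rw [pow_succ, pow_succ, ih, dm_mul_dm]

theorem t_con : Pool.Agent.Y58.HT.S_CON.{u} := by
  intro F _ v l hlv g U hU hgU ε hε
  -- radii
  have hrad : ∀ b, ∃ r : ℝ, 0 < r ∧ ∀ z : ℙ F (Fin 2 → F), pd v z (pb b) < r → g b • z ∈ U b := by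
    intro b
    let M : MetricSpace (ℙ F (Fin 2 → F)) := metricOf v
    obtain ⟨r, hr, hball⟩ := Metric.isOpen_iff.1 (hU b) _ (hgU b)
    refine ⟨r / LC v (g b), div_pos hr (LC_pos v (g b)), ?_⟩
    intro z hz
    apply hball
    rw [Metric.mem_ball]
    show pd v _ _ < r
    calc _ ≤ LC v (g b) * pd v z (pb b) := pd_LC v (g b) z _
      _ < LC v (g b) * (r / LC v (g b)) := (mul_lt_mul_iff_of_pos_left (LC_pos v (g b))).2 hz
      _ = r := by
        have := (LC_pos v (g b)).ne'
        field_simp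
  obtain ⟨r1, hr1, h1⟩ := hrad true
  obtain ⟨r2, hr2, h2⟩ := hrad false
  set r := min r1 r2 with hrdef
  have hr : 0 < r := lt_min hr1 hr2
  have hr' : ∀ b, ∀ z : ℙ F (Fin 2 → F), pd v z (pb b) < r → g b • z ∈ U b := by
    intro b z hz
    cases b
    · exact h2 z (lt_of_lt_of_le hz (min_le_right _ _))
    · exact h1 z (lt_of_lt_of_le hz (min_le_left _ _))
  have hL : ∀ b, 0 < LC v (g b) * LC v (g (!b))⁻¹ := fun b =>
    mul_pos (LC_pos v _) (LC_pos v _)
  obtain ⟨n, hn⟩ := exists_pow_lt_of_lt_one (y := v (l : F))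
    (x := min (r ^ 2) (min (ε * r ^ 2 / (LC v (g true) * LC v (g (!true))⁻¹))
      (ε * r ^ 2 / (LC v (g false) * LC v (g (!false))⁻¹))))
    (lt_min (by positivity) (lt_min (div_pos (by positivity) (hL true))
      (div_pos (by positivity) (hL false)))) hlv
  have hln : v ((l ^ n : Fˣ) : F) = v (l : F) ^ n := by
    rw [Units.val_pow_eq_pow_val, map_pow]
  rw [← hln] at hn
  have hl1 : v ((l ^ n : Fˣ) : F) < r ^ 2 := lt_of_lt_of_le hn (min_le_left _ _)
  have hl2 : ∀ b, v ((l ^ n : Fˣ) : F) < ε * r ^ 2 / (LC v (g b) * LC v (g (!b))⁻¹) := by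
    intro b
    have := lt_of_lt_of_le hn (min_le_right _ _)
    cases b
    · exact lt_of_lt_of_le this (min_le_right _ _)
    · exact lt_of_lt_of_le this (min_le_left _ _)
  have hfar : ∀ b (x : ℙ F (Fin 2 → F)), x ∉ U (!b) → r ≤ pd v ((g (!b))⁻¹ • x) (pb (!b)) := by
    intro b x hx
    by_contra hlt
    have := hr' (!b) _ (not_le.1 hlt)
    rw [smul_inv_smul] at this
    exact hx this
  refine ⟨n, ?_, ?_⟩
  · intro b x hx
    rw [dm_pow, mul_smul, mul_smul]
    have hz := hfar b x hx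
    apply hr'
    generalize (g (!b))⁻¹ • x = z at hz
    induction z using Projectivization.ind with
    | h z hz0 =>
      rw [pb, pd_mk, dd_eb, le_div_iff₀ (nn_pos v hz0)] at hz
      rw [Projectivization.smul_mk, pb, pd_mk]
      refine lt_of_le_of_lt (dm_near v (l ^ n) b r hr hz0 hz) ?_
      rw [div_lt_iff₀ hr, ← pow_two]
      exact hl1
  · intro b x y hx hy
    rw [dm_pow, mul_smul, mul_smul, mul_smul, mul_smul]
    have hzx := hfar b x hx
    have hzy := hfar b y hy
    have hlast := pd_LC v (g (!b))⁻¹ x y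
    have hmid : pd v (dm (l ^ n) b • (g (!b))⁻¹ • x) (dm (l ^ n) b • (g (!b))⁻¹ • y) ≤
        v ((l ^ n : Fˣ) : F) / r ^ 2 * pd v ((g (!b))⁻¹ • x) ((g (!b))⁻¹ • y) := by
      generalize (g (!b))⁻¹ • x = z at hzx
      generalize (g (!b))⁻¹ • y = w at hzy
      induction z using Projectivization.ind with
      | h z hz0 =>
        induction w using Projectivization.ind with
        | h w hw0 =>
          rw [pb, pd_mk, dd_eb, le_div_iff₀ (nn_pos v hz0)] at hzx
          rw [pb, pd_mk, dd_eb, le_div_iff₀ (nn_pos v hw0)] at hzy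
          rw [Projectivization.smul_mk, Projectivization.smul_mk, pd_mk, pd_mk]
          exact dm_contr v (l ^ n) b r hr hz0 hw0 hzx hzy
    have hvl : 0 ≤ v ((l ^ n : Fˣ) : F) := v.nonneg _
    have hpxy := pd_nonneg v x y
    have hL1 := LC_pos v (g b)
    have hL2 := LC_pos v (g (!b))⁻¹
    calc pd v (g b • dm (l ^ n) b • (g (!b))⁻¹ • x) (g b • dm (l ^ n) b • (g (!b))⁻¹ • y)
        ≤ LC v (g b) * pd v (dm (l ^ n) b • (g (!b))⁻¹ • x) (dm (l ^ n) b • (g (!b))⁻¹ • y) :=
          pd_LC v (g b) _ _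
      _ ≤ LC v (g b) * (v ((l ^ n : Fˣ) : F) / r ^ 2 *
            pd v ((g (!b))⁻¹ • x) ((g (!b))⁻¹ • y)) :=
          mul_le_mul_of_nonneg_left hmid hL1.le
      _ ≤ LC v (g b) * (v ((l ^ n : Fˣ) : F) / r ^ 2 * (LC v (g (!b))⁻¹ * pd v x y)) := by
          apply mul_le_mul_of_nonneg_left _ hL1.le
          apply mul_le_mul_of_nonneg_left hlast (by positivity)
      _ = (v ((l ^ n : Fˣ) : F) * (LC v (g b) * LC v (g (!b))⁻¹) / r ^ 2) * pd v x y := by ring
      _ ≤ ε * pd v x y := by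
          apply mul_le_mul_of_nonneg_right _ hpxy
          rw [div_le_iff₀ (by positivity)]
          have h3 := hl2 b
          rw [lt_div_iff₀ (by positivity)] at h3
          exact h3.le

end Pool.Agent.Y865.HT
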